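import Mathlib

set_option autoImplicit false

namespace Pool.Agent.Results.MP_a342dd_al.BranchLead

/-- The `n`-th symbolic power of an ideal `I` of `R`, taken over all associated primes of `R ⧸ I`:
`I^(n) = ⋂_{p ∈ Ass(R/I)} (I^n R_p ∩ R)`. -/
noncomputable def symbolicPower {R : Type*} [CommRing R] (I : Ideal R) (n : ℕ) : Ideal R :=
  ⨅ p : associatedPrimes R (R ⧸ I),
    ((I ^ n).map (algebraMap R (Localization.AtPrime p.1))).comap
      (algebraMap R (Localization.AtPrime p.1))

/-- The symbolic defect `dim_k I^(n) / (I^n + 𝔪 I^(n))`, where `𝔪` is the ideal of all variables. -/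
noncomputable def sdef {k : Type*} [Field k] {σ : Type*} (I : Ideal (MvPolynomial σ k)) (n : ℕ) :
    ℕ :=
  Module.finrank k
    (↥(symbolicPower I n) ⧸
      Submodule.comap (symbolicPower I n).subtype
        (I ^ n ⊔ Ideal.span (Set.range (MvPolynomial.X : σ → MvPolynomial σ k)) *
          symbolicPower I n))

/-- `I` is a monomial ideal: it is generated by monomials. -/
def IsMonomialIdeal {k : Type*} [Field k] {σ : Type*} (I : Ideal (MvPolynomial σ k)) : Prop :=
  ∃ S : Set (σ →₀ ℕ), I = Ideal.span ((fun s => MvPolynomial.monomial s (1 : k)) '' S)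

/-- `P 0, …, P (p - 1)` are the branches of the eventual quasi-polynomial `f` with period `p`:
`f n = P i n` for all large `n` with `n ≡ i mod p`. -/
def IsBranches (f : ℕ → ℕ) (p : ℕ) (P : Fin p → Polynomial ℚ) : Prop :=
  0 < p ∧ ∃ N : ℕ, ∀ n : ℕ, N ≤ n → ∀ i : Fin p, n % p = i → (f n : ℚ) = (P i).eval (n : ℚ)

/-- The branches have equal leading coefficients: with `d` the largest of the degrees of the
branches, the coefficient of `t ^ d` is the same in every branch. -/
def EqualLeadingCoefficients {p : ℕ} (P : Fin p → Polynomial ℚ) : Prop :=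
  ∀ i j : Fin p, (P i).coeff (Finset.univ.sup fun l => (P l).natDegree) =
    (P j).coeff (Finset.univ.sup fun l => (P l).natDegree)

section General

open MvPolynomial

variable {k : Type*} [Field k] {σ : Type*}

/-- monomial ideal attached to a set of exponents -/
noncomputable def mon (k : Type*) [Field k] {σ : Type*} (S : Set (σ →₀ ℕ)) :
    Ideal (MvPolynomial σ k) :=
  Ideal.span ((fun s => monomial s (1 : k)) '' S)

lemma mem_mon {S : Set (σ →₀ ℕ)} {f : MvPolynomial σ k} :
    f ∈ mon k S ↔ ∀ m ∈ f.support, ∃ s ∈ S, s ≤ m :=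
  mem_ideal_span_monomial_image

open scoped Pointwise in
lemma mon_mul (S T : Set (σ →₀ ℕ)) : mon k S * mon k T = mon k (S + T) := by
  unfold mon
  rw [Ideal.span_mul_span']
  congr 1
  ext f
  simp only [Set.mem_mul, Set.mem_image, Set.mem_add]
  constructor
  · rintro ⟨_, ⟨s, hs, rfl⟩, _, ⟨t, ht, rfl⟩, rfl⟩
    exact ⟨s + t, ⟨s, hs, t, ht, rfl⟩, by simp [monomial_mul]⟩
  · rintro ⟨_, ⟨s, hs, t, ht, rfl⟩, rfl⟩
    exact ⟨_, ⟨s, hs, rfl⟩, _, ⟨t, ht, rfl⟩, by simp [monomial_mul]⟩

lemma mon_sup (S T : Set (σ →₀ ℕ)) : mon k S ⊔ mon k T = mon k (S ∪ T) := by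
  unfold mon
  rw [Set.image_union, Ideal.span_union]

lemma mon_vars : Ideal.span (Set.range (X : σ → MvPolynomial σ k)) =
    mon k (Set.range fun i : σ => Finsupp.single i 1) := by
  unfold mon
  congr 1
  ext f
  simp only [Set.mem_range, Set.mem_image, exists_exists_eq_and]
  rfl

end General

section Cancel

open MvPolynomial

variable {k : Type*} [Field k]

/-- Cancellation: `A` an upward closed condition not depending on the coordinate `i`. If `f` has a
monomial violating `A`, and `g` has a monomial which is a power of the variable `i`, then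
`g * f` has a monomial violating `A`. -/
lemma cancel (i : Fin 3) (A : (Fin 3 →₀ ℕ) → Prop)
    (hup : ∀ m m', m ≤ m' → A m → A m')
    (hind : ∀ m c, (∀ j, j ≠ i → c j = 0) → A (m + c) → A m)
    (f g : MvPolynomial (Fin 3) k)
    (hf : ∃ m ∈ f.support, ¬ A m)
    (hg : ∃ c ∈ g.support, ∀ j, j ≠ i → c j = 0) :
    ∃ m ∈ (g * f).support, ¬ A m := by
  classical
  -- the degree in the other variables
  let D : (Fin 3 →₀ ℕ) → ℕ := fun m => ∑ j ∈ Finset.univ.erase i, m j
  obtain ⟨c, hc, hcmin⟩ := Finset.exists_min_image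
    (g.support.filter fun c => ∀ j, j ≠ i → c j = 0) (fun c => c i)
    (by obtain ⟨c, hc, h⟩ := hg; exact ⟨c, Finset.mem_filter.2 ⟨hc, h⟩⟩)
  obtain ⟨m, hm, hmmin⟩ := Finset.exists_min_image
    (f.support.filter fun m => ¬ A m) (fun m => toLex (D m, m i))
    (by obtain ⟨m, hm, h⟩ := hf; exact ⟨m, Finset.mem_filter.2 ⟨hm, h⟩⟩)
  rw [Finset.mem_filter] at hc hm
  refine ⟨c + m, ?_, fun h => hm.2 (hind m c hc.2 (by rwa [add_comm]))⟩
  rw [mem_support_iff, coeff_mul]
  rw [Finset.sum_eq_single (c, m)]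
  · exact mul_ne_zero (mem_support_iff.1 hc.1) (mem_support_iff.1 hm.1)
  · rintro ⟨c', m'⟩ hmem hne
    rw [Finset.HasAntidiagonal.mem_antidiagonal] at hmem
    simp only at hmem
    by_contra hcon
    have hc' : coeff c' g ≠ 0 := left_ne_zero_of_mul hcon
    have hm' : coeff m' f ≠ 0 := right_ne_zero_of_mul hcon
    have hA' : ¬ A m' := by
      intro hA
      apply hm.2
      apply hind m c hc.2
      rw [add_comm, ← hmem]
      exact hup _ _ (by simp) hA
    have h1 := hmmin m' (Finset.mem_filter.2 ⟨mem_support_iff.2 hm', hA'⟩)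
    have hcoord : ∀ j, c' j + m' j = c j + m j := fun j => by
      have := DFunLike.congr_fun hmem j
      simpa using this
    have hD : D c' + D m' = D m := by
      have h2 : D c = 0 := Finset.sum_eq_zero fun j hj => hc.2 j (Finset.ne_of_mem_erase hj)
      have h3 : D c' + D m' = D c + D m := by
        simp only [D, ← Finset.sum_add_distrib]
        exact Finset.sum_congr rfl fun j _ => hcoord j
      omega
    rw [Prod.Lex.le_iff] at h1
    simp only [ofLex_toLex] at h1
    have hDm : D m = D m' := by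
      rcases h1 with h1 | h1
      · omega
      · exact h1.1
    have hDc : D c' = 0 := by omega
    have hc0 : ∀ j, j ≠ i → c' j = 0 := fun j hj => by
      have := (Finset.sum_eq_zero_iff.1 hDc) j (Finset.mem_erase.2 ⟨hj, Finset.mem_univ j⟩)
      exact this
    have h4 := hcmin c' (Finset.mem_filter.2 ⟨mem_support_iff.2 hc', hc0⟩)
    have h5 : m i ≤ m' i := by
      rcases h1 with h1 | h1
      · omega
      · exact h1.2
    have h6 := hcoord i
    have hci : c' i = c i := by omega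
    have hmi : m' i = m i := by omega
    apply hne
    have hcc : c' = c := by
      ext j
      by_cases hj : j = i
      · subst hj; exact hci
      · rw [hc0 j hj, hc.2 j hj]
    have hmm : m' = m := by
      ext j
      have h7 := hcoord j
      rw [hcc] at h7
      omega
    rw [hcc, hmm]
  · intro h
    exact absurd (by simp [Finset.HasAntidiagonal.mem_antidiagonal]) h

end Cancel


section Specific

open MvPolynomial

variable {k : Type*} [Field k]

/-- the exponent vector `(a, b, c)` -/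
noncomputable def ex (a b c : ℕ) : Fin 3 →₀ ℕ := Finsupp.equivFunOnFinite.symm ![a, b, c]

@[simp] lemma ex_0 (a b c : ℕ) : ex a b c 0 = a := rfl
@[simp] lemma ex_1 (a b c : ℕ) : ex a b c 1 = b := rfl
@[simp] lemma ex_2 (a b c : ℕ) : ex a b c 2 = c := rfl

lemma ex_ext {m m' : Fin 3 →₀ ℕ} (h0 : m 0 = m' 0) (h1 : m 1 = m' 1) (h2 : m 2 = m' 2) :
    m = m' := by
  ext j
  fin_cases j
  · exact h0
  · exact h1
  · exact h2

lemma ex_le_iff {a b c : ℕ} {m : Fin 3 →₀ ℕ} :
    ex a b c ≤ m ↔ a ≤ m 0 ∧ b ≤ m 1 ∧ c ≤ m 2 := by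
  constructor
  · intro h
    exact ⟨h 0, h 1, h 2⟩
  · rintro ⟨h0, h1, h2⟩ j
    fin_cases j
    · exact h0
    · exact h1
    · exact h2

/-- exponents of `y^3, y^2 z, x y z, x z^2` -/
def S0 : Set (Fin 3 →₀ ℕ) := {ex 0 3 0, ex 0 2 1, ex 1 1 1, ex 1 0 2}

/-- exponents of the generators of `I0 ^ n` -/
def T (n : ℕ) : Set (Fin 3 →₀ ℕ) :=
  {e | ∃ p q r s : ℕ, p + q + r + s = n ∧ e = ex (r + s) (3 * p + 2 * q + r) (q + r + 2 * s)}

/-- The condition for a monomial to lie in `I0 ^ n`. -/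
def V (n : ℕ) (m : Fin 3 →₀ ℕ) : Prop :=
  ∃ p q r s : ℕ, p + q + r + s = n ∧ r + s ≤ m 0 ∧ 3 * p + 2 * q + r ≤ m 1 ∧ q + r + 2 * s ≤ m 2

/-- The condition for a monomial to lie in the symbolic power. -/
def U (n : ℕ) (m : Fin 3 →₀ ℕ) : Prop :=
  2 * n ≤ 2 * m 0 + m 1 ∧ 2 * n ≤ m 1 + m 2 ∧ 3 * n ≤ m 1 + 2 * m 2

open scoped Pointwise in
lemma T_succ (n : ℕ) : T (n + 1) = T n + S0 := by
  ext e
  simp only [T, S0, Set.mem_add, Set.mem_ofPred_eq, Set.mem_insert_iff, Set.mem_singleton_iff]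
  constructor
  · rintro ⟨p, q, r, s, hsum, rfl⟩
    rcases Nat.eq_zero_or_pos p with hp | hp
    · rcases Nat.eq_zero_or_pos q with hq | hq
      · rcases Nat.eq_zero_or_pos r with hr | hr
        · refine ⟨_, ⟨p, q, r, s - 1, by omega, rfl⟩, ex 1 0 2, by simp, ?_⟩
          apply ex_ext <;> simp <;> omega
        · refine ⟨_, ⟨p, q, r - 1, s, by omega, rfl⟩, ex 1 1 1, by simp, ?_⟩
          apply ex_ext <;> simp <;> omega
      · refine ⟨_, ⟨p, q - 1, r, s, by omega, rfl⟩, ex 0 2 1, by simp, ?_⟩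
        apply ex_ext <;> simp <;> omega
    · refine ⟨_, ⟨p - 1, q, r, s, by omega, rfl⟩, ex 0 3 0, by simp, ?_⟩
      apply ex_ext <;> simp <;> omega
  · rintro ⟨_, ⟨p, q, r, s, hsum, rfl⟩, g, hg, rfl⟩
    rcases hg with rfl | rfl | rfl | rfl
    · refine ⟨p + 1, q, r, s, by omega, ?_⟩
      apply ex_ext <;> simp <;> omega
    · refine ⟨p, q + 1, r, s, by omega, ?_⟩
      apply ex_ext <;> simp <;> omega
    · refine ⟨p, q, r + 1, s, by omega, ?_⟩
      apply ex_ext <;> simp <;> omega
    · refine ⟨p, q, r, s + 1, by omega, ?_⟩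
      apply ex_ext <;> simp <;> omega

lemma pow_eq (n : ℕ) : mon k S0 ^ n = mon k (T n) := by
  induction n with
  | zero =>
    rw [pow_zero, Ideal.one_eq_top, eq_comm, Ideal.eq_top_iff_one, mem_mon]
    intro m _
    exact ⟨ex 0 0 0, ⟨0, 0, 0, 0, rfl, rfl⟩, ex_le_iff.2 (by simp)⟩
  | succ n ih =>
    rw [pow_succ, ih, mon_mul, T_succ]

lemma mem_pow {n : ℕ} {f : MvPolynomial (Fin 3) k} :
    f ∈ mon k S0 ^ n ↔ ∀ m ∈ f.support, V n m := by
  rw [pow_eq, mem_mon]
  refine forall₂_congr fun m _ => ?_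
  constructor
  · rintro ⟨_, ⟨p, q, r, s, hsum, rfl⟩, hle⟩
    rw [ex_le_iff] at hle
    exact ⟨p, q, r, s, hsum, hle⟩
  · rintro ⟨p, q, r, s, hsum, hle⟩
    exact ⟨_, ⟨p, q, r, s, hsum, rfl⟩, ex_le_iff.2 hle⟩

lemma mem_I0 {f : MvPolynomial (Fin 3) k} : f ∈ mon k S0 ↔ ∀ m ∈ f.support, U 1 m := by
  rw [← pow_one (mon k S0), mem_pow]
  refine forall₂_congr fun m _ => ?_
  constructor
  · rintro ⟨p, q, r, s, hsum, hle⟩
    unfold U
    omega
  · intro h
    unfold U at h
    by_cases h1 : 3 ≤ m 1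
    · exact ⟨1, 0, 0, 0, by omega⟩
    by_cases h2 : 2 ≤ m 1
    · exact ⟨0, 1, 0, 0, by omega⟩
    by_cases h3 : 1 ≤ m 1
    · exact ⟨0, 0, 1, 0, by omega⟩
    · exact ⟨0, 0, 0, 1, by omega⟩

/-- The condition for the prime ideal `(x, y)`. -/
def A1 (n : ℕ) (m : Fin 3 →₀ ℕ) : Prop := 2 * n ≤ 2 * m 0 + m 1

/-- The condition for the prime ideal `(y, z)`. -/
def A2 (n : ℕ) (m : Fin 3 →₀ ℕ) : Prop := 2 * n ≤ m 1 + m 2 ∧ 3 * n ≤ m 1 + 2 * m 2

lemma cancel1 {n : ℕ} {f g : MvPolynomial (Fin 3) k} (hf : ¬ ∀ m ∈ f.support, A1 n m)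
    (hg : ¬ ∀ m ∈ g.support, m 0 ≠ 0 ∨ m 1 ≠ 0) : ¬ ∀ m ∈ (g * f).support, A1 n m := by
  push Not at hf hg ⊢
  refine cancel 2 (A1 n) ?_ ?_ f g hf ?_
  · intro m m' hle h
    have h0 := hle 0
    have h1 := hle 1
    unfold A1 at *
    omega
  · intro m c hc h
    have h0 := hc 0 (by decide)
    have h1 := hc 1 (by decide)
    simp only [A1, Finsupp.add_apply, h0, h1] at h
    exact h
  · obtain ⟨c, hc, h0, h1⟩ := hg
    refine ⟨c, hc, fun j hj => ?_⟩
    fin_cases j
    · exact h0
    · exact h1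
    · exact absurd rfl hj

lemma cancel2 {n : ℕ} {f g : MvPolynomial (Fin 3) k} (hf : ¬ ∀ m ∈ f.support, A2 n m)
    (hg : ¬ ∀ m ∈ g.support, m 1 ≠ 0 ∨ m 2 ≠ 0) : ¬ ∀ m ∈ (g * f).support, A2 n m := by
  push Not at hf hg ⊢
  refine cancel 0 (A2 n) ?_ ?_ f g hf ?_
  · intro m m' hle h
    have h0 := hle 1
    have h1 := hle 2
    unfold A2 at *
    omega
  · intro m c hc h
    have h0 := hc 1 (by decide)
    have h1 := hc 2 (by decide)
    simp only [A2, Finsupp.add_apply, h0, h1] at h
    exact h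
  · obtain ⟨c, hc, h0, h1⟩ := hg
    refine ⟨c, hc, fun j hj => ?_⟩
    fin_cases j
    · exact absurd rfl hj
    · exact h0
    · exact h1

/-- the ideal `(x, y)` -/
noncomputable def P1 (k : Type*) [Field k] : Ideal (MvPolynomial (Fin 3) k) :=
  mon k {ex 1 0 0, ex 0 1 0}

/-- the ideal `(y, z)` -/
noncomputable def P2 (k : Type*) [Field k] : Ideal (MvPolynomial (Fin 3) k) :=
  mon k {ex 0 1 0, ex 0 0 1}

lemma mem_P1 {f : MvPolynomial (Fin 3) k} :
    f ∈ P1 k ↔ ∀ m ∈ f.support, m 0 ≠ 0 ∨ m 1 ≠ 0 := by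
  rw [P1, mem_mon]
  refine forall₂_congr fun m _ => ?_
  simp only [Set.mem_insert_iff, Set.mem_singleton_iff, exists_eq_or_imp, exists_eq_left,
    ex_le_iff]
  omega

lemma mem_P2 {f : MvPolynomial (Fin 3) k} :
    f ∈ P2 k ↔ ∀ m ∈ f.support, m 1 ≠ 0 ∨ m 2 ≠ 0 := by
  rw [P2, mem_mon]
  refine forall₂_congr fun m _ => ?_
  simp only [Set.mem_insert_iff, Set.mem_singleton_iff, exists_eq_or_imp, exists_eq_left,
    ex_le_iff]
  omega


lemma A1_one_iff (m : Fin 3 →₀ ℕ) (h : ¬ (m 0 ≠ 0 ∨ m 1 ≠ 0)) : ¬ A1 1 m := by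
  unfold A1
  omega

lemma P1_prime : (P1 k).IsPrime := by
  constructor
  · rw [Ne, Ideal.eq_top_iff_one, mem_P1]
    intro h
    have := h 0 (by simp)
    simp at this
  · intro f g hfg
    by_contra hcon
    push Not at hcon
    obtain ⟨hf, hg⟩ := hcon
    rw [mem_P1] at hf hg hfg
    push Not at hf hg
    have := cancel (k := k) 2 (fun m => m 0 ≠ 0 ∨ m 1 ≠ 0) ?_ ?_ g f
      (by obtain ⟨m, hm, h⟩ := hg; exact ⟨m, hm, by push Not; exact h⟩)
      (by
        obtain ⟨m, hm, h0, h1⟩ := hf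
        refine ⟨m, hm, fun j hj => ?_⟩
        fin_cases j
        · exact h0
        · exact h1
        · exact absurd rfl hj)
    · obtain ⟨m, hm, h⟩ := this
      exact h (hfg m hm)
    · intro m m' hle h
      have h0 := hle 0
      have h1 := hle 1
      omega
    · intro m c hc h
      have h0 := hc 0 (by decide)
      have h1 := hc 1 (by decide)
      simpa only [Finsupp.add_apply, h0, h1, add_zero] using h

lemma P2_prime : (P2 k).IsPrime := by
  constructor
  · rw [Ne, Ideal.eq_top_iff_one, mem_P2]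
    intro h
    have := h 0 (by simp)
    simp at this
  · intro f g hfg
    by_contra hcon
    push Not at hcon
    obtain ⟨hf, hg⟩ := hcon
    rw [mem_P2] at hf hg hfg
    push Not at hf hg
    have := cancel (k := k) 0 (fun m => m 1 ≠ 0 ∨ m 2 ≠ 0) ?_ ?_ g f
      (by obtain ⟨m, hm, h⟩ := hg; exact ⟨m, hm, by push Not; exact h⟩)
      (by
        obtain ⟨m, hm, h0, h1⟩ := hf
        refine ⟨m, hm, fun j hj => ?_⟩
        fin_cases j
        · exact absurd rfl hj
        · exact h0
        · exact h1)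
    · obtain ⟨m, hm, h⟩ := this
      exact h (hfg m hm)
    · intro m m' hle h
      have h0 := hle 1
      have h1 := hle 2
      omega
    · intro m c hc h
      have h0 := hc 1 (by decide)
      have h1 := hc 2 (by decide)
      simpa only [Finsupp.add_apply, h0, h1, add_zero] using h

lemma mem_I0_iff {f : MvPolynomial (Fin 3) k} :
    f ∈ mon k S0 ↔ (∀ m ∈ f.support, A1 1 m) ∧ (∀ m ∈ f.support, A2 1 m) := by
  rw [mem_I0]
  constructor
  · intro h
    exact ⟨fun m hm => (h m hm).1, fun m hm => (h m hm).2⟩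
  · rintro ⟨h1, h2⟩ m hm
    exact ⟨h1 m hm, h2 m hm⟩

/-- Multiplying by a monomial shifts the support. -/
lemma support_monomial_mul {e m : Fin 3 →₀ ℕ} {f : MvPolynomial (Fin 3) k}
    (hm : m ∈ (monomial e (1 : k) * f).support) : ∃ m' ∈ f.support, m = e + m' := by
  classical
  rw [mem_support_iff, coeff_monomial_mul'] at hm
  by_cases h : e ≤ m
  · rw [if_pos h, one_mul] at hm
    exact ⟨m - e, mem_support_iff.2 hm, (add_tsub_cancel_of_le h).symm⟩
  · rw [if_neg h] at hm
    exact absurd rfl hm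

lemma monomial_mem {e : Fin 3 →₀ ℕ} {S : Set (Fin 3 →₀ ℕ)} (h : e ∈ S) :
    monomial e (1 : k) ∈ mon k S := Ideal.subset_span ⟨e, h, rfl⟩

lemma P1_le {p : Ideal (MvPolynomial (Fin 3) k)} (h0 : monomial (ex 1 0 0) (1 : k) ∈ p)
    (h1 : monomial (ex 0 1 0) (1 : k) ∈ p) : P1 k ≤ p := by
  rw [P1, mon, Ideal.span_le]
  rintro _ ⟨e, he, rfl⟩
  rcases he with rfl | rfl
  · exact h0
  · exact h1

lemma P2_le {p : Ideal (MvPolynomial (Fin 3) k)} (h0 : monomial (ex 0 1 0) (1 : k) ∈ p)
    (h1 : monomial (ex 0 0 1) (1 : k) ∈ p) : P2 k ≤ p := by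
  rw [P2, mon, Ideal.span_le]
  rintro _ ⟨e, he, rfl⟩
  rcases he with rfl | rfl
  · exact h0
  · exact h1

lemma mem_colon_mk {I : Ideal (MvPolynomial (Fin 3) k)} {f g : MvPolynomial (Fin 3) k} :
    g ∈ (⊥ : Submodule (MvPolynomial (Fin 3) k) (MvPolynomial (Fin 3) k ⧸ I)).colon
      {Ideal.Quotient.mk I f} ↔ g * f ∈ I := by
  rw [Submodule.mem_colon_singleton, Submodule.mem_bot]
  rw [← Ideal.Quotient.eq_zero_iff_mem, map_mul]
  rfl

lemma ass_subset {p : Ideal (MvPolynomial (Fin 3) k)}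
    (hp : p ∈ associatedPrimes (MvPolynomial (Fin 3) k) (MvPolynomial (Fin 3) k ⧸ mon k S0)) :
    p = P1 k ∨ p = P2 k := by
  rw [AssociatedPrimes.mem_iff, isAssociatedPrime_iff] at hp
  obtain ⟨hprime, x, hx⟩ := hp
  obtain ⟨f, rfl⟩ := Ideal.Quotient.mk_surjective x
  have hmem : ∀ g, g ∈ p ↔ g * f ∈ mon k S0 := fun g => by rw [hx, mem_colon_mk]
  have hI : ∀ g ∈ mon k S0, g ∈ p := fun g hg => by
    rw [hmem]
    exact Ideal.mul_mem_right _ _ hg
  -- `y ∈ p`
  have hy : monomial (ex 0 1 0) (1 : k) ∈ p := by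
    apply hprime.mem_of_pow_mem 3
    rw [monomial_pow, one_pow]
    have : (3 : ℕ) • ex 0 1 0 = ex 0 3 0 := by
      apply ex_ext <;> simp
    rw [this]
    exact hI _ (monomial_mem (by simp [S0]))
  have hxz : monomial (ex 1 0 0) (1 : k) ∈ p ∨ monomial (ex 0 0 1) (1 : k) ∈ p := by
    have h1 : monomial (ex 1 0 0) (1 : k) * monomial (ex 0 0 1) (1 : k) ^ 2 ∈ p := by
      rw [monomial_pow, one_pow, monomial_mul, one_mul]
      have : ex 1 0 0 + (2 : ℕ) • ex 0 0 1 = ex 1 0 2 := by
        apply ex_ext <;> simp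
      rw [this]
      exact hI _ (monomial_mem (by simp [S0]))
    rcases hprime.mem_or_mem h1 with h | h
    · exact Or.inl h
    · exact Or.inr (hprime.mem_of_pow_mem 2 h)
  have hf : f ∉ mon k S0 := by
    intro h
    apply hprime.ne_top
    rw [Ideal.eq_top_iff_one, hmem, one_mul]
    exact h
  rw [mem_I0_iff, not_and_or] at hf
  rcases hf with hf | hf
  · have hle : p ≤ P1 k := by
      intro g hg
      rw [mem_P1]
      by_contra hcon
      have := cancel1 hf hcon
      rw [hmem, mem_I0_iff] at hg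
      exact this hg.1
    left
    apply le_antisymm hle
    rcases hxz with h | h
    · exact P1_le h hy
    · exfalso
      have := hle h
      rw [mem_P1] at this
      have := this (ex 0 0 1) (by simp [mem_support_iff])
      simp at this
  · have hle : p ≤ P2 k := by
      intro g hg
      rw [mem_P2]
      by_contra hcon
      have := cancel2 hf hcon
      rw [hmem, mem_I0_iff] at hg
      exact this hg.2
    right
    apply le_antisymm hle
    rcases hxz with h | h
    · exfalso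
      have := hle h
      rw [mem_P2] at this
      have := this (ex 1 0 0) (by simp [mem_support_iff])
      simp at this
    · exact P2_le hy h

lemma P1_mem_ass :
    P1 k ∈ associatedPrimes (MvPolynomial (Fin 3) k) (MvPolynomial (Fin 3) k ⧸ mon k S0) := by
  rw [AssociatedPrimes.mem_iff, isAssociatedPrime_iff]
  refine ⟨P1_prime, Ideal.Quotient.mk _ (monomial (ex 0 1 2) (1 : k)), ?_⟩
  apply le_antisymm
  · apply P1_le
    · rw [mem_colon_mk, monomial_mul, mem_I0]
      intro m hm
      have : m = ex 1 0 0 + ex 0 1 2 := by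
        by_contra hne
        rw [mem_support_iff, coeff_monomial, if_neg (Ne.symm hne)] at hm
        exact hm rfl
      subst this
      simp [U]
    · rw [mem_colon_mk, monomial_mul, mem_I0]
      intro m hm
      have : m = ex 0 1 0 + ex 0 1 2 := by
        by_contra hne
        rw [mem_support_iff, coeff_monomial, if_neg (Ne.symm hne)] at hm
        exact hm rfl
      subst this
      simp [U]
  · intro g hg
    rw [mem_colon_mk, mem_I0_iff] at hg
    rw [mem_P1]
    by_contra hcon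
    refine cancel1 (n := 1) (f := monomial (ex 0 1 2) (1 : k)) ?_ hcon hg.1
    intro h
    have := h (ex 0 1 2) (by simp [mem_support_iff])
    simp [A1] at this

lemma P2_mem_ass :
    P2 k ∈ associatedPrimes (MvPolynomial (Fin 3) k) (MvPolynomial (Fin 3) k ⧸ mon k S0) := by
  rw [AssociatedPrimes.mem_iff, isAssociatedPrime_iff]
  refine ⟨P2_prime, Ideal.Quotient.mk _ (monomial (ex 1 2 0) (1 : k)), ?_⟩
  apply le_antisymm
  · apply P2_le
    · rw [mem_colon_mk, monomial_mul, mem_I0]
      intro m hm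
      have : m = ex 0 1 0 + ex 1 2 0 := by
        by_contra hne
        rw [mem_support_iff, coeff_monomial, if_neg (Ne.symm hne)] at hm
        exact hm rfl
      subst this
      simp [U]
    · rw [mem_colon_mk, monomial_mul, mem_I0]
      intro m hm
      have : m = ex 0 0 1 + ex 1 2 0 := by
        by_contra hne
        rw [mem_support_iff, coeff_monomial, if_neg (Ne.symm hne)] at hm
        exact hm rfl
      subst this
      simp [U]
  · intro g hg
    rw [mem_colon_mk, mem_I0_iff] at hg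
    rw [mem_P2]
    by_contra hcon
    refine cancel2 (n := 1) (f := monomial (ex 1 2 0) (1 : k)) ?_ hcon hg.2
    intro h
    have := h (ex 1 2 0) (by simp [mem_support_iff])
    simp [A2] at this

lemma mem_comap_map {p : Ideal (MvPolynomial (Fin 3) k)} [p.IsPrime]
    {J : Ideal (MvPolynomial (Fin 3) k)} {f : MvPolynomial (Fin 3) k} :
    f ∈ (J.map (algebraMap _ (Localization.AtPrime p))).comap
      (algebraMap _ (Localization.AtPrime p)) ↔ ∃ s, s ∉ p ∧ s * f ∈ J := by
  rw [Ideal.mem_comap, IsLocalization.algebraMap_mem_map_algebraMap_iff p.primeCompl]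
  rfl

lemma mem_symb1 {n : ℕ} {f : MvPolynomial (Fin 3) k} :
    (∃ s, s ∉ P1 k ∧ s * f ∈ mon k S0 ^ n) ↔ ∀ m ∈ f.support, A1 n m := by
  constructor
  · rintro ⟨s, hs, hsf⟩
    by_contra hcon
    rw [mem_P1] at hs
    apply cancel1 hcon hs
    rw [mem_pow] at hsf
    intro m hm
    obtain ⟨p, q, r, t, h⟩ := hsf m hm
    unfold A1
    omega
  · intro h
    refine ⟨monomial (ex 0 0 (2 * n)) (1 : k), ?_, ?_⟩
    · rw [mem_P1]
      intro h
      have := h (ex 0 0 (2 * n)) (by simp [mem_support_iff])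
      simp at this
    · rw [mem_pow]
      intro m hm
      obtain ⟨m', hm', rfl⟩ := support_monomial_mul hm
      have h1 := h m' hm'
      unfold A1 at h1
      refine ⟨0, min n (m' 1 / 2), 0, n - min n (m' 1 / 2), ?_, ?_, ?_, ?_⟩
      · omega
      · simp only [Finsupp.add_apply, ex_0]
        omega
      · simp only [Finsupp.add_apply, ex_1]
        omega
      · simp only [Finsupp.add_apply, ex_2]
        omega

lemma mem_symb2 {n : ℕ} {f : MvPolynomial (Fin 3) k} :
    (∃ s, s ∉ P2 k ∧ s * f ∈ mon k S0 ^ n) ↔ ∀ m ∈ f.support, A2 n m := by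
  constructor
  · rintro ⟨s, hs, hsf⟩
    by_contra hcon
    rw [mem_P2] at hs
    apply cancel2 hcon hs
    rw [mem_pow] at hsf
    intro m hm
    obtain ⟨p, q, r, t, h⟩ := hsf m hm
    unfold A2
    omega
  · intro h
    refine ⟨monomial (ex n 0 0) (1 : k), ?_, ?_⟩
    · rw [mem_P2]
      intro h
      have := h (ex n 0 0) (by simp [mem_support_iff])
      simp at this
    · rw [mem_pow]
      intro m hm
      obtain ⟨m', hm', rfl⟩ := support_monomial_mul hm
      have h1 := h m' hm'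
      unfold A2 at h1
      by_cases hb : m' 1 ≤ n
      · refine ⟨0, 0, m' 1, n - m' 1, ?_, ?_, ?_, ?_⟩
        · omega
        · simp only [Finsupp.add_apply, ex_0]
          omega
        · simp only [Finsupp.add_apply, ex_1]
          omega
        · simp only [Finsupp.add_apply, ex_2]
          omega
      · refine ⟨min n ((m' 1 - n) / 2), 0, n - min n ((m' 1 - n) / 2), 0, ?_, ?_, ?_, ?_⟩
        · omega
        · simp only [Finsupp.add_apply, ex_0]
          omega
        · simp only [Finsupp.add_apply, ex_1]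
          omega
        · simp only [Finsupp.add_apply, ex_2]
          omega

lemma mem_symb {n : ℕ} {f : MvPolynomial (Fin 3) k} :
    f ∈ symbolicPower (mon k S0) n ↔ ∀ m ∈ f.support, U n m := by
  have := P1_prime (k := k)
  have := P2_prime (k := k)
  unfold symbolicPower
  rw [Ideal.mem_iInf]
  constructor
  · intro h m hm
    have h1 := h ⟨P1 k, P1_mem_ass⟩
    have h2 := h ⟨P2 k, P2_mem_ass⟩
    rw [mem_comap_map, mem_symb1] at h1
    rw [mem_comap_map, mem_symb2] at h2
    exact ⟨h1 m hm, h2 m hm⟩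
  · rintro h ⟨p, hp⟩
    rcases ass_subset hp with rfl | rfl
    · rw [mem_comap_map, mem_symb1]
      exact fun m hm => (h m hm).1
    · rw [mem_comap_map, mem_symb2]
      exact fun m hm => (h m hm).2


/-- Dimension of a quotient of monomial ideals. -/
lemma finrank_quot (A B : (Fin 3 →₀ ℕ) → Prop) (Gs : Finset (Fin 3 →₀ ℕ))
    (hG : ∀ m, m ∈ Gs ↔ A m ∧ ¬ B m) (J K : Ideal (MvPolynomial (Fin 3) k))
    (hJ : ∀ f, f ∈ J ↔ ∀ m ∈ f.support, A m) (hK : ∀ f, f ∈ K ↔ ∀ m ∈ f.support, B m) :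
    Module.finrank k (↥J ⧸ Submodule.comap J.subtype K) = Gs.card := by
  classical
  let φ : J →ₗ[k] (Gs → k) :=
    { toFun := fun f g => coeff g.1 f.1
      map_add' := fun f g => by
        funext x
        simp
      map_smul' := fun c f => by
        funext x
        simp }
  have hsurj : Function.Surjective φ := by
    intro v
    have hmem : (∑ g : Gs, monomial g.1 (v g) : MvPolynomial (Fin 3) k) ∈ J := by
      apply Ideal.sum_mem
      intro g _
      rw [hJ]
      intro m hm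
      have hmg : m = g.1 := by
        by_contra hne
        rw [mem_support_iff, coeff_monomial, if_neg (Ne.symm hne)] at hm
        exact hm rfl
      rw [hmg]
      exact ((hG g.1).1 g.2).1
    refine ⟨⟨_, hmem⟩, ?_⟩
    funext x
    change coeff x.1 (∑ g : Gs, monomial g.1 (v g) : MvPolynomial (Fin 3) k) = v x
    rw [coeff_sum]
    simp only [coeff_monomial]
    rw [Finset.sum_eq_single x]
    · simp
    · intro b _ hb
      rw [if_neg]
      intro h
      exact hb (Subtype.ext h)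
    · intro h
      exact absurd (Finset.mem_univ _) h
  have hker : LinearMap.ker φ = (Submodule.comap J.subtype K).restrictScalars k := by
    ext f
    rw [LinearMap.mem_ker, Submodule.restrictScalars_mem, Submodule.mem_comap,
      Submodule.subtype_apply, hK]
    constructor
    · intro h m hm
      by_contra hB
      have hA : A m := (hJ f.1).1 f.2 m hm
      have := congrFun h ⟨m, (hG m).2 ⟨hA, hB⟩⟩
      exact (mem_support_iff.1 hm) this
    · intro h
      funext g
      change coeff g.1 f.1 = 0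
      by_contra hne
      exact ((hG g.1).1 g.2).2 (h g.1 (mem_support_iff.2 hne))
  have e1 : (↥J ⧸ (Submodule.comap J.subtype K).restrictScalars k) ≃ₗ[k]
      (↥J ⧸ Submodule.comap J.subtype K) := Submodule.Quotient.restrictScalarsEquiv k _
  have e2 : (↥J ⧸ LinearMap.ker φ) ≃ₗ[k] (Gs → k) := LinearMap.quotKerEquivOfSurjective φ hsurj
  rw [hker] at e2
  rw [← e1.finrank_eq, e2.finrank_eq, Module.finrank_fintype_fun_eq_card, Fintype.card_coe]

/-- The condition for a monomial to lie in `I^n + 𝔪 I^(n)`. -/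
def W (n : ℕ) (m : Fin 3 →₀ ℕ) : Prop :=
  V n m ∨ (m 0 ≠ 0 ∧ U n (ex (m 0 - 1) (m 1) (m 2))) ∨ (m 1 ≠ 0 ∧ U n (ex (m 0) (m 1 - 1) (m 2))) ∨
    (m 2 ≠ 0 ∧ U n (ex (m 0) (m 1) (m 2 - 1)))

lemma symb_eq (n : ℕ) : symbolicPower (mon k S0) n = mon k {m | U n m} := by
  ext f
  rw [mem_symb, mem_mon]
  refine forall₂_congr fun m _ => ?_
  constructor
  · intro h
    exact ⟨m, h, le_rfl⟩
  · rintro ⟨s, hs, hle⟩
    have h0 := hle 0
    have h1 := hle 1
    have h2 := hle 2
    change U n s at hs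
    unfold U at *
    omega

open scoped Pointwise in
lemma mem_W {n : ℕ} {f : MvPolynomial (Fin 3) k} :
    f ∈ (mon k S0) ^ n ⊔ Ideal.span (Set.range (X : Fin 3 → MvPolynomial (Fin 3) k)) *
      symbolicPower (mon k S0) n ↔ ∀ m ∈ f.support, W n m := by
  rw [symb_eq, pow_eq, mon_vars, mon_mul, mon_sup, mem_mon]
  refine forall₂_congr fun m _ => ?_
  constructor
  · rintro ⟨s, hs | hs, hle⟩
    · left
      obtain ⟨p, q, r, t, hsum, rfl⟩ := hs
      rw [ex_le_iff] at hle
      exact ⟨p, q, r, t, hsum, hle⟩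
    · right
      obtain ⟨_, ⟨i, rfl⟩, t, ht, rfl⟩ := hs
      change U n t at ht
      have h0 := hle 0
      have h1 := hle 1
      have h2 := hle 2
      fin_cases i
      · left
        simp at h0 h1 h2
        unfold U at *
        simp only [ex_0, ex_1, ex_2]
        omega
      · right; left
        simp at h0 h1 h2
        unfold U at *
        simp only [ex_0, ex_1, ex_2]
        omega
      · right; right
        simp at h0 h1 h2
        unfold U at *
        simp only [ex_0, ex_1, ex_2]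
        omega
  · rintro (⟨p, q, r, t, hsum, hle⟩ | ⟨h, hU⟩ | ⟨h, hU⟩ | ⟨h, hU⟩)
    · exact ⟨_, Or.inl ⟨p, q, r, t, hsum, rfl⟩, ex_le_iff.2 hle⟩
    · refine ⟨_, Or.inr ⟨_, ⟨0, rfl⟩, _, hU, rfl⟩, le_of_eq ?_⟩
      apply ex_ext <;> simp
      omega
    · refine ⟨_, Or.inr ⟨_, ⟨1, rfl⟩, _, hU, rfl⟩, le_of_eq ?_⟩
      apply ex_ext <;> simp
      omega
    · refine ⟨_, Or.inr ⟨_, ⟨2, rfl⟩, _, hU, rfl⟩, le_of_eq ?_⟩
      apply ex_ext <;> simp
      omega

lemma sdef_eq (n : ℕ) (Gs : Finset (Fin 3 →₀ ℕ)) (hG : ∀ m, m ∈ Gs ↔ U n m ∧ ¬ W n m) :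
    sdef (mon k S0) n = Gs.card :=
  finrank_quot (U n) (W n) Gs hG _ _ (fun _ => mem_symb) (fun _ => mem_W)

/-- The surviving values of the middle exponent. -/
def B (n : ℕ) : Finset ℕ :=
  (Finset.range (3 * n)).filter fun b => 2 ≤ b ∧
    (b ≤ n ∨ (b ≤ 2 * n ∧ b % 2 = 0) ∨ b % 2 = n % 2)

/-- The minimal generator of the symbolic power with middle exponent `b`. -/
noncomputable def gen (n b : ℕ) : Fin 3 →₀ ℕ :=
  ex (n - b / 2) b (if b ≤ n then 2 * n - b else (3 * n - b + 1) / 2)

lemma V_iff (n : ℕ) (m : Fin 3 →₀ ℕ) (hn : 2 ≤ n) (h : U n m)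
    (h0 : ¬ (m 0 ≠ 0 ∧ U n (ex (m 0 - 1) (m 1) (m 2))))
    (h1 : ¬ (m 1 ≠ 0 ∧ U n (ex (m 0) (m 1 - 1) (m 2))))
    (h2 : ¬ (m 2 ≠ 0 ∧ U n (ex (m 0) (m 1) (m 2 - 1)))) :
    V n m ↔ (m 1 ≤ 1 ∨ 3 * n ≤ m 1) := by
  unfold U at h h0 h1 h2
  simp only [ex_0, ex_1, ex_2] at h0 h1 h2
  constructor
  · rintro ⟨p, q, r, s, hsum, ha, hb, hc⟩
    by_contra hcon
    omega
  · rintro (hb | hb)
    · exact ⟨0, 0, m 1, n - m 1, by omega, by omega, by omega, by omega⟩
    · exact ⟨n, 0, 0, 0, by omega, by omega, by omega, by omega⟩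

lemma mem_G {n : ℕ} (hn : 2 ≤ n) (m : Fin 3 →₀ ℕ) :
    m ∈ (B n).image (gen n) ↔ U n m ∧ ¬ W n m := by
  rw [Finset.mem_image]
  constructor
  · rintro ⟨b, hb, rfl⟩
    rw [B, Finset.mem_filter, Finset.mem_range] at hb
    have hU : U n (gen n b) := by
      unfold U gen
      simp only [ex_0, ex_1, ex_2]
      split_ifs <;> omega
    have h0 : ¬ ((gen n b) 0 ≠ 0 ∧ U n (ex ((gen n b) 0 - 1) ((gen n b) 1) ((gen n b) 2))) := by
      unfold U gen
      simp only [ex_0, ex_1, ex_2]
      split_ifs <;> omega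
    have h1 : ¬ ((gen n b) 1 ≠ 0 ∧ U n (ex ((gen n b) 0) ((gen n b) 1 - 1) ((gen n b) 2))) := by
      unfold U gen
      simp only [ex_0, ex_1, ex_2]
      split_ifs <;> omega
    have h2 : ¬ ((gen n b) 2 ≠ 0 ∧ U n (ex ((gen n b) 0) ((gen n b) 1) ((gen n b) 2 - 1))) := by
      unfold U gen
      simp only [ex_0, ex_1, ex_2]
      split_ifs <;> omega
    refine ⟨hU, ?_⟩
    rintro (hV | h | h | h)
    · rw [V_iff n _ hn hU h0 h1 h2] at hV
      unfold gen at hV
      simp only [ex_1] at hV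
      omega
    · exact h0 h
    · exact h1 h
    · exact h2 h
  · rintro ⟨hU, hW⟩
    unfold W at hW
    push Not at hW
    obtain ⟨hV, h0, h1, h2⟩ := hW
    have h0' : ¬ (m 0 ≠ 0 ∧ U n (ex (m 0 - 1) (m 1) (m 2))) := fun h => h0 h.1 h.2
    have h1' : ¬ (m 1 ≠ 0 ∧ U n (ex (m 0) (m 1 - 1) (m 2))) := fun h => h1 h.1 h.2
    have h2' : ¬ (m 2 ≠ 0 ∧ U n (ex (m 0) (m 1) (m 2 - 1))) := fun h => h2 h.1 h.2
    rw [V_iff n m hn hU h0' h1' h2'] at hV
    unfold U at hU h0' h1' h2'
    simp only [ex_0, ex_1, ex_2] at h0' h1' h2'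
    refine ⟨m 1, ?_, ?_⟩
    · rw [B, Finset.mem_filter, Finset.mem_range]
      omega
    · unfold gen
      apply ex_ext
      · simp only [ex_0]
        omega
      · simp only [ex_1]
      · simp only [ex_2]
        split_ifs <;> omega

lemma gen_inj (n : ℕ) : Function.Injective (gen n) := by
  intro b b' h
  have := DFunLike.congr_fun h 1
  simpa [gen] using this

lemma sdef_card {n : ℕ} (hn : 2 ≤ n) : sdef (mon k S0) n = (B n).card := by
  rw [sdef_eq n _ (mem_G hn), Finset.card_image_of_injective _ (gen_inj n)]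

lemma B_even {n : ℕ} (hn : 2 ≤ n) (he : Even n) : (B n).card = 2 * n - 2 := by
  obtain ⟨h, rfl⟩ := he
  have : B (h + h) = Finset.Icc 2 (2 * h) ∪ (Finset.Ioo h (3 * h)).image (fun j => 2 * j) := by
    ext b
    simp only [B, Finset.mem_filter, Finset.mem_range, Finset.mem_union, Finset.mem_Icc,
      Finset.mem_image, Finset.mem_Ioo]
    constructor
    · intro hb
      by_cases hb' : b ≤ 2 * h
      · left; omega
      · right
        exact ⟨b / 2, by omega, by omega⟩
    · rintro (hb | ⟨j, hj, rfl⟩) <;> omega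
  rw [this, Finset.card_union_of_disjoint, Finset.card_image_of_injective,
    Nat.card_Icc, Nat.card_Ioo]
  · omega
  · intro a b hab
    simpa using hab
  · rw [Finset.disjoint_left]
    intro b hb hb'
    simp only [Finset.mem_Icc, Finset.mem_image, Finset.mem_Ioo] at hb hb'
    omega

lemma B_odd {n : ℕ} (hn : 2 ≤ n) (ho : Odd n) : 2 * (B n).card = 5 * n - 3 := by
  obtain ⟨h, rfl⟩ := ho
  have : B (2 * h + 1) = Finset.Icc 2 (4 * h + 2) ∪
      (Finset.Ico (2 * h + 1) (3 * h + 1)).image (fun j => 2 * j + 1) := by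
    ext b
    simp only [B, Finset.mem_filter, Finset.mem_range, Finset.mem_union, Finset.mem_Icc,
      Finset.mem_image, Finset.mem_Ico]
    constructor
    · intro hb
      by_cases hb' : b ≤ 4 * h + 2
      · left; omega
      · right
        exact ⟨b / 2, by omega, by omega⟩
    · rintro (hb | ⟨j, hj, rfl⟩) <;> omega
  rw [this, Finset.card_union_of_disjoint, Finset.card_image_of_injective,
    Nat.card_Icc, Nat.card_Ico]
  · omega
  · intro a b hab
    simpa using hab
  · rw [Finset.disjoint_left]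
    intro b hb hb'
    simp only [Finset.mem_Icc, Finset.mem_image, Finset.mem_Ico] at hb hb'
    omega

lemma sdef_even {n : ℕ} (hn : 2 ≤ n) (he : Even n) : sdef (mon k S0) n = 2 * n - 2 := by
  rw [sdef_card hn, B_even hn he]

lemma sdef_odd {n : ℕ} (hn : 2 ≤ n) (he : Odd n) : 2 * sdef (mon k S0) n = 5 * n - 3 := by
  rw [sdef_card hn, B_odd hn he]


lemma I0_eq : (Ideal.span {X 1 ^ 3, X 1 ^ 2 * X 2, X 0 * X 1 * X 2, X 0 * X 2 ^ 2} :
    Ideal (MvPolynomial (Fin 3) k)) = mon k S0 := by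
  have h1 : (X 1 ^ 3 : MvPolynomial (Fin 3) k) = monomial (ex 0 3 0) 1 := by
    rw [X_pow_eq_monomial]
    exact congrArg (fun e => monomial e (1 : k)) (by apply ex_ext <;> simp)
  have h2 : (X 1 ^ 2 * X 2 : MvPolynomial (Fin 3) k) = monomial (ex 0 2 1) 1 := by
    rw [X_pow_eq_monomial, X, monomial_mul, one_mul]
    exact congrArg (fun e => monomial e (1 : k)) (by apply ex_ext <;> simp)
  have h3 : (X 0 * X 1 * X 2 : MvPolynomial (Fin 3) k) = monomial (ex 1 1 1) 1 := by
    rw [X, X, X, monomial_mul, monomial_mul, one_mul, one_mul]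
    exact congrArg (fun e => monomial e (1 : k)) (by apply ex_ext <;> simp)
  have h4 : (X 0 * X 2 ^ 2 : MvPolynomial (Fin 3) k) = monomial (ex 1 0 2) 1 := by
    rw [X_pow_eq_monomial, X, monomial_mul, one_mul]
    exact congrArg (fun e => monomial e (1 : k)) (by apply ex_ext <;> simp)
  rw [h1, h2, h3, h4, mon, S0]
  congr 1
  simp only [Set.image_insert_eq, Set.image_singleton]

end Specific

section Branches

open Polynomial

/-- Two rational polynomials agreeing at infinitely many naturals are equal. -/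
lemma poly_eq {P Q : ℚ[X]} (a b N : ℕ) (ha : 0 < a)
    (h : ∀ m : ℕ, N ≤ a * m + b → P.eval ((a * m + b : ℕ) : ℚ) = Q.eval ((a * m + b : ℕ) : ℚ)) :
    P = Q := by
  apply Polynomial.eq_of_infinite_eval_eq
  apply Set.infinite_of_injective_forall_mem (f := fun m : ℕ => ((a * (m + N) + b : ℕ) : ℚ))
  · intro m m' hmm
    simp only at hmm
    have h1 : a * (m + N) + b = a * (m' + N) + b := by exact_mod_cast hmm
    have h2 : a * (m + N) = a * (m' + N) := by omega
    have h3 := Nat.eq_of_mul_eq_mul_left ha h2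
    omega
  · intro m
    apply h
    nlinarith

/-- Branches of a function with different linear behaviours on even and odd integers do not have
equal leading coefficients. -/
lemma not_equal (f : ℕ → ℕ) (he : ∀ n : ℕ, 2 ≤ n → Even n → (f n : ℚ) = 2 * n - 2)
    (ho : ∀ n : ℕ, 2 ≤ n → Odd n → (f n : ℚ) = 5 / 2 * n - 3 / 2)
    (p : ℕ) (P : Fin p → ℚ[X]) (hP : IsBranches f p P) : ¬ EqualLeadingCoefficients P := by
  obtain ⟨hp, N, hN⟩ := hP
  let Qe : ℚ[X] := C 2 * Polynomial.X + C (-2)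
  let Qo : ℚ[X] := C (5 / 2) * Polynomial.X + C (-(3 / 2))
  have key : ∀ i : Fin p, ∀ b : ℕ, b % p = i →
      (Even b → P i = Qe) ∧ (Odd b → P i = Qo) := by
    intro i b hb
    constructor
    · intro heb
      apply poly_eq (2 * p) b (N + 2) (by omega)
      intro m hm
      have hmod : (2 * p * m + b) % p = i := by
        rw [show 2 * p * m + b = b + p * (2 * m) by ring, Nat.add_mul_mod_self_left]
        exact hb
      rw [← hN _ (by omega) i hmod, he _ (by omega)]
      · simp only [Qe, eval_add, eval_mul, eval_C, eval_X]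
        ring
      · rw [show 2 * p * m + b = 2 * (p * m) + b by ring]
        exact (even_two_mul _).add heb
    · intro hob
      apply poly_eq (2 * p) b (N + 2) (by omega)
      intro m hm
      have hmod : (2 * p * m + b) % p = i := by
        rw [show 2 * p * m + b = b + p * (2 * m) by ring, Nat.add_mul_mod_self_left]
        exact hb
      rw [← hN _ (by omega) i hmod, ho _ (by omega)]
      · simp only [Qo, eval_add, eval_mul, eval_C, eval_X]
        ring
      · rw [show 2 * p * m + b = 2 * (p * m) + b by ring]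
        exact (even_two_mul _).add_odd hob
  have hQe : Qe.natDegree = 1 := Polynomial.natDegree_linear (by norm_num)
  have hQo : Qo.natDegree = 1 := Polynomial.natDegree_linear (by norm_num)
  have hdeg : ∀ i : Fin p, (P i).natDegree = 1 := by
    intro i
    have h1 := key i i.1 (Nat.mod_eq_of_lt i.2)
    rcases Nat.even_or_odd i.1 with h | h
    · rw [h1.1 h, hQe]
    · rw [h1.2 h, hQo]
  have hsup : (Finset.univ.sup fun l => (P l).natDegree) = 1 := by
    apply le_antisymm
    · exact Finset.sup_le fun i _ => (hdeg i).le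
    · have := Finset.le_sup (f := fun l => (P l).natDegree) (Finset.mem_univ (⟨0, hp⟩ : Fin p))
      simp only [hdeg] at this ⊢
      exact this
  intro hE
  have h0 := (key ⟨0, hp⟩ 0 (by simp)).1 (by simp)
  have h1 := (key ⟨1 % p, Nat.mod_lt _ hp⟩ 1 rfl).2 (by simp)
  have := hE ⟨0, hp⟩ ⟨1 % p, Nat.mod_lt _ hp⟩
  rw [hsup, h0, h1] at this
  simp only [Qe, Qo, coeff_add, coeff_C_mul, coeff_X_one, coeff_C_succ] at this
  norm_num at this

end Branches

open Polynomial in
/-- For every field `k`, the monomial ideal `I = (y^3, y^2 z, x y z, x z^2)` of `k[x, y, z]`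
has symbolic defect `2 n - 2` for even `n ≥ 2` and `(5 n - 3) / 2` for odd `n ≥ 3`. So the branches
of its symbolic defect quasi-polynomial do not have equal leading coefficients. -/
theorem result (k : Type*) [Field k] :
    ∃ I : Ideal (MvPolynomial (Fin 3) k),
      I = Ideal.span {MvPolynomial.X 1 ^ 3, MvPolynomial.X 1 ^ 2 * MvPolynomial.X 2,
        MvPolynomial.X 0 * MvPolynomial.X 1 * MvPolynomial.X 2,
        MvPolynomial.X 0 * MvPolynomial.X 2 ^ 2} ∧
      IsMonomialIdeal I ∧
      (∀ n : ℕ, 2 ≤ n → Even n → (sdef I n : ℚ) = 2 * n - 2) ∧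
      (∀ n : ℕ, 2 ≤ n → Odd n → (sdef I n : ℚ) = 5 / 2 * n - 3 / 2) ∧
      (∃ P : Fin 2 → ℚ[X], IsBranches (sdef I) 2 P) ∧
      ∀ (p : ℕ) (P : Fin p → ℚ[X]), IsBranches (sdef I) p P → ¬ EqualLeadingCoefficients P := by
  refine ⟨_, rfl, ?_⟩
  rw [I0_eq]
  have he : ∀ n : ℕ, 2 ≤ n → Even n → (sdef (mon k S0) n : ℚ) = 2 * n - 2 := by
    intro n hn h
    rw [sdef_even hn h, Nat.cast_sub (by omega)]
    push_cast
    ring
  have ho : ∀ n : ℕ, 2 ≤ n → Odd n → (sdef (mon k S0) n : ℚ) = 5 / 2 * n - 3 / 2 := by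
    intro n hn h
    have h1 := sdef_odd (k := k) hn h
    have h2 : 2 * sdef (mon k S0) n + 3 = 5 * n := by omega
    have h3 : (2 : ℚ) * sdef (mon k S0) n + 3 = 5 * n := by exact_mod_cast h2
    linarith
  refine ⟨⟨S0, rfl⟩, he, ho, ⟨![C 2 * Polynomial.X + C (-2),
    C (5 / 2) * Polynomial.X + C (-(3 / 2))], by norm_num, 2, ?_⟩, not_equal _ he ho⟩
  intro n hn i hi
  fin_cases i
  · rw [he n hn (Nat.even_iff.2 hi)]
    simp
    ring
  · rw [ho n hn (Nat.odd_iff.2 hi)]
    simp
    ring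

end Pool.Agent.Results.MP_a342dd_al.BranchLead
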